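import Pool.Agent.H58.JU.Targets

/-!
# MP_6a7a6f_gt, board jun_modules, row OPV: the top homology of the Cayley plane
-/

set_option autoImplicit false

namespace Pool.Agent.H50.JU

open Pool.Agent.H58.JU Pool.Agent.H59 Pool.Agent.H48.FR Pool.Agent.H58.FL
open Pool.Agent.H59.OP (CA P2 Oct oct_finrank)
open scoped RealInnerProductSpace Quaternion

theorem pf_OPV (hMVI : T_MVI) (hPUN : T_PUN) (hPNN : T_PNN) (hOPO : T_OPO) : T_OPV := by
  intro h17
  have : FiniteDimensional ℝ Oct := Module.finite_of_finrank_pos (by rw [oct_finrank]; norm_num)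
  obtain ⟨O₁, O₂, h1, h2, hu, ha, hb, hc⟩ := hOPO Oct
  rw [oct_finrank] at ha hc
  have h3 : Van 16 (Pn 9) := (hPUN 9).1 16 (by norm_num)
  exact hPNN 16 (hc 16 (hMVI _ O₁ O₂ h1 h2 hu 16 (ha 16 h3) (hb 16) h17))

end Pool.Agent.H50.JU
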